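import Pool.Agent.W935.SK.Stm

/-!
Project SK (helper935): the two-sided sequence and integral sequences.
-/

set_option autoImplicit false

namespace Pool.Agent.W736.SK

open Finset Pool.Agent.H884R2.Sko Pool.Agent.W935.SK

variable {D : ℕ}

theorem sol' (c' a : Fin (D + 1) → ℤ) (n : ℕ) :
    seq c' a (n + (D + 1)) = c' 0 * seq c' a n + ∑ i : Fin D, c' i.succ * seq c' a (n + i + 1) := by
  rw [seq_sol, Fin.sum_univ_succ]
  simp [add_assoc]

theorem seq_add (c' a b : Fin (D + 1) → ℤ) (n : ℕ) :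
    seq c' (a + b) n = seq c' a n + seq c' b n := by
  symm
  apply eq_seq c' (a + b) (fun n => seq c' a n + seq c' b n)
  · intro n
    simp only [seq_sol, mul_add, sum_add_distrib]
  · intro i
    simp only [seq_init, Pi.add_apply]

theorem seq_smul (c' a : Fin (D + 1) → ℤ) (r : ℤ) (n : ℕ) :
    seq c' (r • a) n = r * seq c' a n := by
  symm
  apply eq_seq c' (r • a) (fun n => r * seq c' a n)
  · intro n
    simp only [seq_sol, mul_sum]
    exact sum_congr rfl fun i _ => by ring
  · intro i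
    simp only [seq_init, Pi.smul_apply, smul_eq_mul]

/-- shift -/
def Sh (c' : Fin (D + 1) → ℤ) (m : ℕ) : (Fin (D + 1) → ℤ) →ₗ[ℤ] (Fin (D + 1) → ℤ) where
  toFun a := fun i => seq c' a (m + i)
  map_add' a b := by funext i; exact seq_add c' a b _
  map_smul' r a := by funext i; exact seq_smul c' a r _

theorem seq_Sh (c' a : Fin (D + 1) → ℤ) (m n : ℕ) : seq c' (Sh c' m a) n = seq c' a (m + n) := by
  symm
  apply eq_seq c' (Sh c' m a) (fun n => seq c' a (m + n))
  · intro n
    have h := seq_sol c' a (m + n)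
    have e : m + n + (D + 1) = m + (n + (D + 1)) := by ring
    rw [e] at h
    rw [h]
    exact sum_congr rfl fun i _ => by rw [add_assoc]
  · intro i
    rfl

/-- backward step -/
def Bk (c' : Fin (D + 1) → ℤ) : (Fin (D + 1) → ℤ) →ₗ[ℤ] (Fin (D + 1) → ℤ) where
  toFun a := Fin.cons (a (Fin.last D) - ∑ i : Fin D, c' i.succ * a i.castSucc)
    (fun i : Fin D => c' 0 * a i.castSucc)
  map_add' a b := by
    funext i
    refine Fin.cases ?_ (fun i => ?_) i
    · simp only [Fin.cons_zero, Pi.add_apply, mul_add, sum_add_distrib]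
      ring
    · simp only [Fin.cons_succ, Pi.add_apply, mul_add]
  map_smul' r a := by
    funext i
    refine Fin.cases ?_ (fun i => ?_) i
    · simp only [Fin.cons_zero, Pi.smul_apply, smul_eq_mul, RingHom.id_apply, mul_sub, mul_sum]
      congr 1
      exact sum_congr rfl fun i _ => by ring
    · simp only [Fin.cons_succ, Pi.smul_apply, smul_eq_mul, RingHom.id_apply]
      ring

theorem Bk_zero (c' a : Fin (D + 1) → ℤ) :
    Bk c' a 0 = a (Fin.last D) - ∑ i : Fin D, c' i.succ * a i.castSucc := rfl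

theorem Bk_succ (c' a : Fin (D + 1) → ℤ) (i : Fin D) :
    Bk c' a i.succ = c' 0 * a i.castSucc := rfl

theorem seq_Bk (c' a : Fin (D + 1) → ℤ) (n : ℕ) :
    seq c' (Bk c' a) (n + 1) = c' 0 * seq c' a n := by
  have h1 : ∀ n, seq c' (Bk c' a) (n + 1) = seq c' (c' 0 • a) n := by
    apply eq_seq c' (c' 0 • a) (fun n => seq c' (Bk c' a) (n + 1))
    · intro n
      have h := seq_sol c' (Bk c' a) (n + 1)
      have e : n + (D + 1) + 1 = n + 1 + (D + 1) := by ring
      simp only [e]
      rw [h]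
      exact sum_congr rfl fun i _ => by
        have e2 : n + 1 + (i : ℕ) = n + i + 1 := by ring
        rw [e2]
    · intro i
      rw [Pi.smul_apply, smul_eq_mul]
      refine Fin.lastCases ?_ (fun i => ?_) i
      · have h := sol' c' (Bk c' a) 0
        rw [zero_add] at h
        rw [Fin.val_last, h]
        have h0 := seq_init c' (Bk c' a) 0
        rw [Fin.val_zero] at h0
        rw [h0, Bk_zero]
        have h2 : ∀ i : Fin D, seq c' (Bk c' a) (0 + i + 1) = c' 0 * a i.castSucc := by
          intro i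
          have h3 := seq_init c' (Bk c' a) i.succ
          rw [Fin.val_succ] at h3
          rw [zero_add, h3, Bk_succ]
        simp only [h2]
        rw [mul_sub, mul_sum]
        have h4 : ∑ i : Fin D, c' i.succ * (c' 0 * a i.castSucc) =
            ∑ i : Fin D, c' 0 * (c' i.succ * a i.castSucc) :=
          sum_congr rfl fun i _ => by ring
        rw [h4]
        ring
      · have h3 := seq_init c' (Bk c' a) i.succ
        rw [Fin.val_succ] at h3
        rw [Fin.val_castSucc, h3, Bk_succ]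
  rw [h1, seq_smul]

theorem seq_Bkp (c' a : Fin (D + 1) → ℤ) (k n : ℕ) :
    seq c' ((Bk c' ^ k) a) (n + k) = c' 0 ^ k * seq c' a n := by
  induction k generalizing n with
  | zero => simp
  | succ k ih =>
    rw [pow_succ', Module.End.mul_apply, ← add_assoc, seq_Bk, ih, pow_succ']
    ring

/-- divisibility of all terms -/
theorem dvd_all (c' a : Fin (D + 1) → ℤ) (p : ℤ) (h : ∀ i, p ∣ a i) (n : ℕ) :
    p ∣ seq c' a n := by
  choose b hb using h
  have e : a = p • b := by funext i; rw [Pi.smul_apply, smul_eq_mul]; exact hb i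
  rw [e, seq_smul]
  exact dvd_mul_right _ _

/-- the two-sided recurrence in the other indexing -/
theorem bi_rec (c : Fin (D + 1) → ℤ) (w : ℤ → ℚ) (n : ℤ) :
    ∑ i : Fin (D + 1), (c i : ℚ) * w (n + ((D + 1 : ℕ) : ℤ) - 1 - ((i : ℕ) : ℤ)) =
      ∑ i : Fin (D + 1), (c (Fin.rev i) : ℚ) * w (n + ((i : ℕ) : ℤ)) := by
  rw [← sum_rev (fun i : Fin (D + 1) =>
    (c i : ℚ) * w (n + ((D + 1 : ℕ) : ℤ) - 1 - ((i : ℕ) : ℤ)))]
  refine sum_congr rfl fun i _ => ?_
  have hi := i.2
  have e : n + ((D + 1 : ℕ) : ℤ) - 1 - (((Fin.rev i : Fin (D + 1)) : ℕ) : ℤ) =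
      n + ((i : ℕ) : ℤ) := by
    rw [Fin.val_rev]; omega
  rw [e]

theorem bi : S_BI := by
  intro d hd c hc m
  obtain ⟨D, rfl⟩ : ∃ D, d = D + 1 := ⟨d - 1, by omega⟩
  set c' : Fin (D + 1) → ℤ := fun i => c (Fin.rev i) with hc'
  have hq : c ⟨D + 1 - 1, by omega⟩ = c' 0 := by
    rw [hc']
    congr 1
  rw [hq] at hc
  have hq0 : (c' 0 : ℚ) ≠ 0 := by exact_mod_cast hc
  -- nonnegative indices
  have fwd : ∀ a w, IsBi c a w → ∀ n : ℕ, w n = ((seq c' a n : ℤ) : ℚ) := by
    intro a w hw n
    have h1 := eq_seq (fun i => (c' i : ℚ)) (fun i => (a i : ℚ)) (fun n : ℕ => w n) (by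
      intro n
      have h2 := hw.2 n
      rw [bi_rec] at h2
      push_cast at h2 ⊢
      exact h2) hw.1 n
    rw [h1]
    exact (map_seq (Int.castRingHom ℚ) c' a n).symm
  have rel : ∀ a w, IsBi c a w → ∀ k n : ℕ,
      (c' 0 : ℚ) ^ k * w ((n : ℤ) - (k : ℤ)) = ((seq c' ((Bk c' ^ k) a) n : ℤ) : ℚ) := by
    intro a w hw k
    induction k with
    | zero =>
      intro n
      simpa using fwd a w hw n
    | succ k ih =>
      have hpos : ∀ n : ℕ, (c' 0 : ℚ) ^ (k + 1) * w (((n + 1 : ℕ) : ℤ) - ((k + 1 : ℕ) : ℤ)) =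
          ((seq c' ((Bk c' ^ (k + 1)) a) (n + 1) : ℤ) : ℚ) := by
        intro n
        have e : ((n + 1 : ℕ) : ℤ) - ((k + 1 : ℕ) : ℤ) = (n : ℤ) - (k : ℤ) := by
          push_cast; ring
        rw [e, pow_succ', mul_assoc, ih n, pow_succ', Module.End.mul_apply, seq_Bk]
        push_cast
        rfl
      intro n
      rcases n with _ | n
      · have hrec := hw.2 (((0 : ℕ) : ℤ) - ((k + 1 : ℕ) : ℤ))
        rw [bi_rec, Fin.sum_univ_succ] at hrec
        have hs := sol' c' ((Bk c' ^ (k + 1)) a) 0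
        have hs' : ((seq c' ((Bk c' ^ (k + 1)) a) (0 + (D + 1)) : ℤ) : ℚ) =
            (c' 0 : ℚ) * ((seq c' ((Bk c' ^ (k + 1)) a) 0 : ℤ) : ℚ) +
            ∑ i : Fin D, (c' i.succ : ℚ) * ((seq c' ((Bk c' ^ (k + 1)) a) (0 + i + 1) : ℤ) : ℚ) := by
          rw [hs]; push_cast; rfl
        have e1 : ((0 : ℕ) : ℤ) - ((k + 1 : ℕ) : ℤ) + ((D + 1 : ℕ) : ℤ) =
            ((D + 1 : ℕ) : ℤ) - ((k + 1 : ℕ) : ℤ) := by push_cast; ring
        have e2 : ∀ i : Fin D, ((0 : ℕ) : ℤ) - ((k + 1 : ℕ) : ℤ) + ((i.succ : ℕ) : ℤ) =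
            (((i : ℕ) + 1 : ℕ) : ℤ) - ((k + 1 : ℕ) : ℤ) := by
          intro i
          rw [Fin.val_succ]; push_cast; ring
        rw [e1] at hrec
        simp only [e2] at hrec
        have e3 : ((0 : ℕ) : ℤ) - ((k + 1 : ℕ) : ℤ) + (((0 : Fin (D + 1)) : ℕ) : ℤ) =
            ((0 : ℕ) : ℤ) - ((k + 1 : ℕ) : ℤ) := by
          rw [Fin.val_zero]; push_cast; ring
        rw [e3] at hrec
        apply mul_left_cancel₀ hq0
        have h1 : (c' 0 : ℚ) ^ (k + 1) * w (((D + 1 : ℕ) : ℤ) - ((k + 1 : ℕ) : ℤ)) =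
            (c' 0 : ℚ) * ((c' 0 : ℚ) ^ (k + 1) * w (((0 : ℕ) : ℤ) - ((k + 1 : ℕ) : ℤ))) +
            ∑ i : Fin D, (c' i.succ : ℚ) * ((c' 0 : ℚ) ^ (k + 1) *
              w ((((i : ℕ) + 1 : ℕ) : ℤ) - ((k + 1 : ℕ) : ℤ))) := by
          rw [hrec, mul_add, mul_sum]
          congr 1
          · ring
          · exact sum_congr rfl fun i _ => by ring
        rw [hpos D] at h1
        simp only [hpos] at h1
        simp only [zero_add] at hs'
        linarith
      · exact hpos n
  -- existence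
  have exi : ∀ a, ∃ w, IsBi c a w := by
    intro a
    obtain ⟨w, hw⟩ : ∃ w : ℤ → ℚ, w = fun n => if 0 ≤ n then ((seq c' a n.toNat : ℤ) : ℚ) else
      ((seq c' ((Bk c' ^ (-n).toNat) a) 0 : ℤ) : ℚ) / (c' 0 : ℚ) ^ (-n).toNat := ⟨_, rfl⟩
    have F : ∀ k n : ℕ, w ((n : ℤ) - (k : ℤ)) =
        ((seq c' ((Bk c' ^ k) a) n : ℤ) : ℚ) / (c' 0 : ℚ) ^ k := by
      intro k n
      by_cases h : k ≤ n
      · obtain ⟨j, rfl⟩ := Nat.exists_eq_add_of_le h
        have e : ((k + j : ℕ) : ℤ) - (k : ℤ) = (j : ℤ) := by push_cast; ring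
        rw [e, hw]
        simp only
        rw [if_pos (by omega), Int.toNat_natCast, add_comm k j, seq_Bkp]
        push_cast
        field_simp
      · obtain ⟨j, rfl⟩ : ∃ j, k = n + (j + 1) := ⟨k - n - 1, by omega⟩
        have e : (n : ℤ) - ((n + (j + 1) : ℕ) : ℤ) = -((j + 1 : ℕ) : ℤ) := by push_cast; ring
        rw [e, hw]
        simp only
        rw [if_neg (by omega), neg_neg, Int.toNat_natCast]
        have e2 : seq c' ((Bk c' ^ (n + (j + 1))) a) n =
            c' 0 ^ n * seq c' ((Bk c' ^ (j + 1)) a) 0 := by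
          have h3 := seq_Bkp c' ((Bk c' ^ (j + 1)) a) n 0
          rw [zero_add, ← Module.End.mul_apply, ← pow_add] at h3
          exact h3
        rw [e2, pow_add (c' 0 : ℚ) n (j + 1)]
        push_cast
        field_simp
    refine ⟨w, fun i => ?_, fun n => ?_⟩
    · have h := F 0 i
      simp only [Nat.cast_zero, sub_zero, pow_zero, div_one, Module.End.one_apply] at h
      rw [h, seq_init]
    · obtain ⟨k, n', rfl⟩ : ∃ k n' : ℕ, n = (n' : ℤ) - (k : ℤ) :=
        ⟨(-n).toNat, n.toNat, by omega⟩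
      rw [bi_rec]
      have e1 : (n' : ℤ) - (k : ℤ) + ((D + 1 : ℕ) : ℤ) = ((n' + (D + 1) : ℕ) : ℤ) - (k : ℤ) := by
        push_cast; ring
      rw [e1, F]
      have e2 : ∀ i : Fin (D + 1), (c (Fin.rev i) : ℚ) * w ((n' : ℤ) - (k : ℤ) + ((i : ℕ) : ℤ)) =
          (c' i : ℚ) * ((seq c' ((Bk c' ^ k) a) (n' + i) : ℤ) : ℚ) / (c' 0 : ℚ) ^ k := by
        intro i
        have e3 : (n' : ℤ) - (k : ℤ) + ((i : ℕ) : ℤ) = ((n' + i : ℕ) : ℤ) - (k : ℤ) := by
          push_cast; ring
        rw [e3, F, mul_div_assoc]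
      rw [sum_congr rfl fun i _ => e2 i, ← sum_div, seq_sol]
      push_cast
      rfl
  rcases le_or_gt 0 m with hm | hm
  · obtain ⟨M, rfl⟩ := Int.eq_ofNat_of_zero_le hm
    refine ⟨Sh c' M, M + 1, 1, 1, le_rfl, one_ne_zero, ?_, ?_, ?_⟩
    · intro a i
      rw [one_mul]
      have h := seq_Sh c' a M (1 + i)
      rw [h]
      congr 1
      ring
    · intro p hp hpn a ha
      rw [hq] at hpn
      have hpi := Nat.prime_iff_prime_int.mp hp
      have key : ∀ M : ℕ, (∀ i : Fin (D + 1), (p : ℤ) ∣ seq c' a (M + i)) →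
          ∀ i : Fin (D + 1), (p : ℤ) ∣ a i := by
        intro M
        induction M with
        | zero =>
          intro h i
          have := h i
          rwa [zero_add, seq_init] at this
        | succ M ih =>
          intro h
          apply ih
          intro i
          refine Fin.cases ?_ (fun i => ?_) i
          · rw [Fin.val_zero, add_zero]
            have h1 := h (Fin.last D)
            rw [Fin.val_last] at h1
            have h2 := sol' c' a M
            have e : M + 1 + D = M + (D + 1) := by ring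
            rw [e, h2] at h1
            have h3 : (p : ℤ) ∣ ∑ i : Fin D, c' i.succ * seq c' a (M + i + 1) := by
              apply Finset.dvd_sum
              intro i _
              have h4 := h i.castSucc
              rw [Fin.val_castSucc] at h4
              have e4 : M + 1 + (i : ℕ) = M + i + 1 := by ring
              rw [e4] at h4
              exact dvd_mul_of_dvd_right h4 _
            have h5 := (dvd_add_left h3).1 h1
            exact (hpi.dvd_or_dvd h5).resolve_left hpn
          · have h4 := h i.castSucc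
            rw [Fin.val_castSucc] at h4
            rw [Fin.val_succ]
            have e4 : M + 1 + (i : ℕ) = M + (i + 1) := by ring
            rw [e4] at h4
            exact h4
      exact key M ha
    · intro a
      refine ⟨exi a, fun w hw => ⟨?_, ?_⟩⟩
      · have h1 : seq (fun i => c (Fin.rev i)) (Sh c' M a) 0 = seq c' a M := by
          have := seq_Sh c' a M 0
          rwa [add_zero] at this
        rw [h1]
        have h2 := fwd a w hw M
        constructor
        · intro h
          have h3 : w ((M : ℕ) : ℤ) = 0 := h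
          rw [h3] at h2
          exact_mod_cast h2.symm
        · intro h
          rw [h, Int.cast_zero] at h2
          exact h2
      · intro h n hn
        obtain ⟨j, hj, rfl⟩ : ∃ j : ℕ, 1 ≤ j ∧ n = ((M + j : ℕ) : ℤ) :=
          ⟨(n - M).toNat, by omega, by omega⟩
        intro h0
        have h2 := fwd a w hw (M + j)
        rw [h0] at h2
        apply h j hj
        have h3 : seq (fun i => c (Fin.rev i)) (Sh c' M a) j = seq c' a (M + j) :=
          seq_Sh c' a M j
        rw [h3]
        exact_mod_cast h2.symm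
  · obtain ⟨k, hk, rfl⟩ : ∃ k : ℕ, 1 ≤ k ∧ m = -(k : ℤ) := ⟨(-m).toNat, by omega, by omega⟩
    refine ⟨Bk c' ^ k, 0, k, c' 0 ^ k, hk, pow_ne_zero _ hc, ?_, ?_, ?_⟩
    · intro a i
      have h := seq_Bkp c' a k i
      rw [add_comm k, zero_add]
      exact h
    · intro p hp hpn a ha i
      rw [hq] at hpn
      have hpi := Nat.prime_iff_prime_int.mp hp
      have h1 := dvd_all c' ((Bk c' ^ k) a) p ha (i + k)
      rw [seq_Bkp, seq_init] at h1
      rcases hpi.dvd_or_dvd h1 with h | h
      · exact absurd (hpi.dvd_of_dvd_pow h) hpn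
      · exact h
    · intro a
      refine ⟨exi a, fun w hw => ⟨?_, ?_⟩⟩
      · have h := rel a w hw k 0
        rw [Nat.cast_zero, zero_sub] at h
        constructor
        · intro h0
          rw [h0, mul_zero] at h
          exact_mod_cast h.symm
        · intro h0
          have h0' : seq c' ((Bk c' ^ k) a) 0 = 0 := h0
          rw [h0', Int.cast_zero] at h
          exact (mul_eq_zero.1 h).resolve_left (pow_ne_zero _ hq0)
      · intro h n hn
        obtain ⟨j, hj, rfl⟩ : ∃ j : ℕ, 1 ≤ j ∧ n = (j : ℤ) - (k : ℤ) :=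
          ⟨(n + k).toNat, by omega, by omega⟩
        have h1 := rel a w hw k j
        intro h0
        rw [h0, mul_zero] at h1
        exact h j hj (by exact_mod_cast h1.symm)

end Pool.Agent.W736.SK
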